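import Pool.Agent.P.MP_983584_an.Config

set_option autoImplicit false

namespace Pool.Agent.P.MP_983584_an

open Finset

lemma sum_sym_split {ι : Type} [Fintype ι] (p : ι → ℕ) (hp : Function.Injective p)
    (t : ι → ι → ℝ) (ht : ∀ i k, t i k = t k i) :
    ∑ i, ∑ k, t i k = 2 * (∑ i, ∑ k, if p k < p i then t i k else 0) + ∑ i, t i i := by
  classical
  have e : ∀ i k, t i k = (if p k < p i then t i k else 0) + (if p i < p k then t k i else 0) +
      (if i = k then t i i else 0) := by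
    intro i k
    rcases lt_trichotomy (p i) (p k) with h | h | h
    · have : i ≠ k := by rintro rfl; exact lt_irrefl _ h
      rw [if_neg h.not_gt, if_pos h, if_neg this, ht]; ring
    · have := hp h
      subst this
      simp
    · have : i ≠ k := by rintro rfl; exact lt_irrefl _ h
      rw [if_pos h, if_neg h.not_gt, if_neg this]; ring
  have e2 : ∑ i, ∑ k, t i k = ∑ i, ∑ k, ((if p k < p i then t i k else 0) +
      (if p i < p k then t k i else 0) + (if i = k then t i i else 0)) :=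
    sum_congr rfl fun i _ => sum_congr rfl fun k _ => e i k
  rw [e2]
  simp only [sum_add_distrib, sum_ite_eq, mem_univ, if_true]
  rw [sum_comm (f := fun i k => if p i < p k then t k i else 0)]
  ring

lemma energy_ge {ι : Type} [Fintype ι] (p : ι → ℕ) (w : ι → ℝ) (hw : ∀ i, 0 ≤ w i) (R : ℕ)
    (hR : ∀ i, p i ≤ R) :
    (∑ i, ∑ k, if p k < p i then w i ^ 2 * w k ^ 2 else 0) ≤
      ∑ n ∈ range R, corr p w (n + 1) ^ 2 := by
  have h1 : ∀ n, (∑ i, ∑ k, if p i = p k + (n + 1) then w i ^ 2 * w k ^ 2 else 0) ≤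
      corr p w (n + 1) ^ 2 := by
    intro n
    unfold corr
    have nn : ∀ i k, 0 ≤ (if p i = p k + (n + 1) then w i * w k else 0) := by
      intro i k
      split_ifs
      · exact mul_nonneg (hw i) (hw k)
      · exact le_rfl
    refine le_trans ?_ (sum_sq_le_sq_sum_of_nonneg fun i _ => sum_nonneg fun k _ => nn i k)
    refine sum_le_sum fun i _ => ?_
    refine le_trans ?_ (sum_sq_le_sq_sum_of_nonneg fun k _ => nn i k)
    refine sum_le_sum fun k _ => ?_
    split_ifs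
    · rw [mul_pow]
    · simp
  refine le_trans ?_ (sum_le_sum fun n _ => h1 n)
  rw [sum_comm (s := range R)]
  refine sum_le_sum fun i _ => ?_
  rw [sum_comm (s := range R)]
  refine sum_le_sum fun k _ => ?_
  split_ifs with h
  · have hm : p i - p k - 1 ∈ range R := by
      have := hR i
      rw [mem_range]; omega
    refine le_trans ?_ (single_le_sum (f := fun n => if p i = p k + (n + 1) then
      w i ^ 2 * w k ^ 2 else 0) (fun n _ => ?_) hm)
    · rw [if_pos]; omega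
    · split_ifs
      · positivity
      · exact le_rfl
  · refine sum_nonneg fun n _ => ?_
    split_ifs
    · positivity
    · exact le_rfl

lemma sum_inv_sqrt_le (i : ℕ) : ∑ k ∈ range i, 1 / √((k : ℝ) + 1) ≤ 2 * √(i : ℝ) := by
  induction i with
  | zero => simp
  | succ i ih =>
    rw [sum_range_succ]
    push_cast
    have h1 : 0 < √((i : ℝ) + 1) := Real.sqrt_pos.2 (by positivity)
    have h2 : √((i : ℝ) + 1) ^ 2 = i + 1 := Real.sq_sqrt (by positivity)
    have h3 : √(i : ℝ) ^ 2 = i := Real.sq_sqrt (by positivity)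
    have h4 : 1 / √((i : ℝ) + 1) ≤ 2 * √((i : ℝ) + 1) - 2 * √(i : ℝ) := by
      rw [div_le_iff₀ h1]
      nlinarith [sq_nonneg (√((i : ℝ) + 1) - √(i : ℝ))]
    linarith

lemma sum_geom_cut (L : ℝ) (hL : 0 ≤ L) (x : ℝ) (hx : 0 ≤ x) (K : ℕ) :
    (∑ i ∈ range K, if L * 2 ^ i ≤ x then L * 2 ^ i else 0) ≤ L * 2 ^ K ∧
    (∑ i ∈ range K, if L * 2 ^ i ≤ x then L * 2 ^ i else 0) ≤ 2 * x := by
  induction K with
  | zero => simp [hL, hx]
  | succ K ih =>
    rw [sum_range_succ, pow_succ]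
    have : 0 ≤ L * 2 ^ K := by positivity
    split_ifs with h
    · constructor <;> linarith [ih.1, ih.2]
    · constructor <;> linarith [ih.1, ih.2]

lemma bterm_pow_le (L i k : ℕ) (N : ℝ) :
    bterm (L * 2 ^ i) (L * 2 ^ k) N ≤
      if k < i then (if (L : ℝ) * 2 ^ i ≤ 2 * N then (L : ℝ) * 2 ^ i else 0) else 0 := by
  unfold bterm
  have hLi : (0 : ℝ) ≤ (L : ℝ) * 2 ^ i := by positivity
  have hLk : (0 : ℝ) ≤ (L : ℝ) * 2 ^ k := by positivity
  by_cases h : L * 2 ^ k < L * 2 ^ i ∧ ((L * 2 ^ i : ℕ) : ℝ) - ((L * 2 ^ k : ℕ) : ℝ) ≤ N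
  · rw [if_pos h]
    have hki : k < i := by
      have := Nat.lt_of_mul_lt_mul_left h.1
      exact (Nat.pow_lt_pow_iff_right (by norm_num)).1 this
    have h2 := h.2
    push_cast at h2 ⊢
    have h3 : (2 : ℝ) ^ (k + 1) ≤ 2 ^ i := pow_le_pow_right₀ (by norm_num) hki
    have h4 : (L : ℝ) * 2 ^ (k + 1) ≤ L * 2 ^ i := mul_le_mul_of_nonneg_left h3 (Nat.cast_nonneg L)
    rw [pow_succ] at h4
    rw [if_pos hki, if_pos (by linarith)]
    linarith
  · rw [if_neg h]
    split_ifs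
    · exact hLi
    · exact le_rfl
    · exact le_rfl

lemma exists_base (ε : ℝ) (hε : 0 < ε) (L : ℕ) (hL : 0 < L) :
    ∃ (K : ℕ) (q : Fin K → ℕ) (v : Fin K → ℝ), Good q v ε (1 / 4) ∧
      ∀ i k, q k < q i → q k + L ≤ q i := by
  obtain ⟨K, hK⟩ := (Filter.tendsto_atTop.1 Real.tendsto_sum_range_one_div_nat_succ_atTop
    (max 2 (8 / ε))).exists
  set V : ℝ := ∑ i ∈ range K, 1 / ((i : ℝ) + 1) with hV
  have hV2 : 2 ≤ V := le_trans (le_max_left _ _) hK
  have hV8 : 8 / ε ≤ V := le_trans (le_max_right _ _) hK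
  have hV0 : 0 < V := by linarith
  have hs0 : 0 < √V := Real.sqrt_pos.2 hV0
  have hs2 : √V ^ 2 = V := Real.sq_sqrt hV0.le
  have hinj : Function.Injective (fun i : Fin K => L * 2 ^ (i : ℕ)) := by
    intro i k e
    simp only at e
    have := Nat.eq_of_mul_eq_mul_left hL e
    exact Fin.ext (Nat.pow_right_injective (le_refl 2) this)
  have hsq : ∀ i : ℕ, (1 / √((i : ℝ) + 1) / √V) ^ 2 = 1 / ((i : ℝ) + 1) / V := by
    intro i
    rw [div_pow, div_pow, hs2, Real.sq_sqrt (by positivity), one_pow]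
  have hnorm : ∑ i : Fin K, (1 / √(((i : ℕ) : ℝ) + 1) / √V) ^ 2 = 1 := by
    rw [Fin.sum_univ_eq_sum_range (fun i : ℕ => (1 / √((i : ℝ) + 1) / √V) ^ 2) K]
    simp only [hsq]
    rw [← sum_div, ← hV, div_self hV0.ne']
  refine ⟨K, fun i => L * 2 ^ (i : ℕ), fun i => 1 / √(((i : ℕ) : ℝ) + 1) / √V,
    ⟨fun i => by positivity, hinj, hnorm, ?_, ?_⟩, ?_⟩
  · intro N hN
    unfold bsum
    have h1 : ∀ i : Fin K, ∑ k : Fin K, bterm (L * 2 ^ (i : ℕ)) (L * 2 ^ (k : ℕ)) N *
        (1 / √(((i : ℕ) : ℝ) + 1) / √V * (1 / √(((k : ℕ) : ℝ) + 1) / √V)) ≤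
        (if (L : ℝ) * 2 ^ (i : ℕ) ≤ 2 * N then (L : ℝ) * 2 ^ (i : ℕ) else 0) * (2 / V) := by
      intro i
      set c : ℝ := (if (L : ℝ) * 2 ^ (i : ℕ) ≤ 2 * N then (L : ℝ) * 2 ^ (i : ℕ) else 0) with hc
      have hc0 : 0 ≤ c := by
        rw [hc]; split_ifs
        · positivity
        · exact le_rfl
      have h2 : ∑ k : Fin K, bterm (L * 2 ^ (i : ℕ)) (L * 2 ^ (k : ℕ)) N *
          (1 / √(((i : ℕ) : ℝ) + 1) / √V * (1 / √(((k : ℕ) : ℝ) + 1) / √V)) ≤
          ∑ k : Fin K, (if (k : ℕ) < (i : ℕ) then c else 0) *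
          (1 / √(((i : ℕ) : ℝ) + 1) / √V * (1 / √(((k : ℕ) : ℝ) + 1) / √V)) :=
        sum_le_sum fun k _ => mul_le_mul_of_nonneg_right (bterm_pow_le L i k N) (by positivity)
      refine le_trans h2 ?_
      rw [Fin.sum_univ_eq_sum_range (fun k : ℕ => (if k < (i : ℕ) then c else 0) *
          (1 / √(((i : ℕ) : ℝ) + 1) / √V * (1 / √((k : ℝ) + 1) / √V))) K]
      have h3 : ∑ k ∈ range K, (if k < (i : ℕ) then c else 0) *
          (1 / √(((i : ℕ) : ℝ) + 1) / √V * (1 / √((k : ℝ) + 1) / √V)) =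
          ∑ k ∈ range i, c *
          (1 / √(((i : ℕ) : ℝ) + 1) / √V * (1 / √((k : ℝ) + 1) / √V)) := by
        simp only [ite_mul, zero_mul]
        rw [← sum_filter]
        congr 1
        ext k
        simp only [mem_filter, mem_range]
        have := i.2
        omega
      rw [h3, ← mul_sum, ← mul_sum, ← sum_div]
      refine mul_le_mul_of_nonneg_left ?_ hc0
      have h4 := sum_inv_sqrt_le i
      have h5 : √((i : ℕ) : ℝ) ≤ √(((i : ℕ) : ℝ) + 1) := Real.sqrt_le_sqrt (by linarith)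
      have h6 : 0 < √(((i : ℕ) : ℝ) + 1) := Real.sqrt_pos.2 (by positivity)
      calc 1 / √(((i : ℕ) : ℝ) + 1) / √V * ((∑ k ∈ range i, 1 / √((k : ℝ) + 1)) / √V)
          ≤ 1 / √(((i : ℕ) : ℝ) + 1) / √V * ((2 * √(((i : ℕ) : ℝ) + 1)) / √V) := by
            gcongr
            linarith
        _ = 2 / √V ^ 2 := by field_simp
        _ = 2 / V := by rw [hs2]
    refine le_trans (sum_le_sum fun i _ => h1 i) ?_
    rw [← sum_mul, Fin.sum_univ_eq_sum_range (fun i : ℕ =>
      if (L : ℝ) * 2 ^ i ≤ 2 * N then (L : ℝ) * 2 ^ i else 0) K]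
    have h7 := (sum_geom_cut L (Nat.cast_nonneg L) (2 * N) (by linarith) K).2
    have h8 : 8 / V ≤ ε := by
      rw [div_le_iff₀ hV0]
      rw [div_le_iff₀ hε] at hV8
      linarith
    calc _ ≤ 2 * (2 * N) * (2 / V) := mul_le_mul_of_nonneg_right h7 (by positivity)
      _ = 8 / V * N := by ring
      _ ≤ ε * N := mul_le_mul_of_nonneg_right h8 hN
  · refine ⟨L * 2 ^ K, le_trans ?_ (energy_ge _ _ (fun i => by positivity) _ ?_)⟩
    · have h1 := sum_sym_split _ hinj (fun i k : Fin K =>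
        (1 / √(((i : ℕ) : ℝ) + 1) / √V) ^ 2 * (1 / √(((k : ℕ) : ℝ) + 1) / √V) ^ 2)
        (fun i k => mul_comm _ _)
      rw [← sum_mul_sum, hnorm] at h1
      have h2 : ∑ i : Fin K, (1 / √(((i : ℕ) : ℝ) + 1) / √V) ^ 2 *
          (1 / √(((i : ℕ) : ℝ) + 1) / √V) ^ 2 ≤
          ∑ i : Fin K, (1 / √(((i : ℕ) : ℝ) + 1) / √V) ^ 2 * (1 / 2) := by
        refine sum_le_sum fun i _ => mul_le_mul_of_nonneg_left ?_ (sq_nonneg _)
        rw [hsq]
        have h3 : 1 / (((i : ℕ) : ℝ) + 1) ≤ 1 := by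
          rw [div_le_one (by positivity)]
          have : (0 : ℝ) ≤ ((i : ℕ) : ℝ) := Nat.cast_nonneg _
          linarith
        rw [div_le_iff₀ hV0]
        linarith
      rw [← sum_mul, hnorm] at h2
      linarith
    · intro i
      exact Nat.mul_le_mul_left L (Nat.pow_le_pow_right (by norm_num) i.2.le)
  · intro i k h
    simp only at h ⊢
    have hki : (k : ℕ) < i := by
      have := Nat.lt_of_mul_lt_mul_left h
      exact (Nat.pow_lt_pow_iff_right (by norm_num)).1 this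
    have h3 : 2 ^ ((k : ℕ) + 1) ≤ 2 ^ (i : ℕ) := Nat.pow_le_pow_right (by norm_num) hki
    have h4 : L * 2 ^ ((k : ℕ) + 1) ≤ L * 2 ^ (i : ℕ) := Nat.mul_le_mul_left L h3
    have h5 : L * 1 ≤ L * 2 ^ (k : ℕ) := Nat.mul_le_mul_left L Nat.one_le_two_pow
    rw [pow_succ, ← mul_assoc] at h4
    omega

lemma exists_good (j : ℕ) : ∃ (ι : Type) (_ : Fintype ι) (p : ι → ℕ) (w : ι → ℝ) (M : ℝ),
    M < 1 ∧ Good p w M (j / 4) := by
  induction j with
  | zero =>
    refine ⟨Unit, inferInstance, fun _ => 0, fun _ => 1, 0, by norm_num,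
      ⟨fun _ => by norm_num, fun _ _ _ => rfl, by simp, ?_, ⟨0, by simp⟩⟩⟩
    intro N _
    simp [bsum, bterm]
  | succ j ih =>
    obtain ⟨ι, _, p, w, M, hM, h⟩ := ih
    set A : ℝ := (∑ i, w i) ^ 2 with hA
    have hA0 : 0 ≤ A := sq_nonneg _
    obtain ⟨K, q, v, h', hq⟩ := exists_base ((1 - M) / (3 * A + 1)) (by
      apply div_pos <;> linarith) (2 * (∑ i, p i) + 1) (by omega)
    have hL : ∀ i, 2 * p i < 2 * (∑ i, p i) + 1 := by
      intro i
      have : p i ≤ ∑ i, p i := single_le_sum (fun _ _ => Nat.zero_le _) (mem_univ i)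
      omega
    have := h.prod h' _ hL hq
    refine ⟨ι × Fin K, inferInstance, _, _, _, ?_, by
      convert this using 1; push_cast; ring⟩
    rw [← hA]
    have h1 : 3 * A * ((1 - M) / (3 * A + 1)) < 1 - M := by
      rw [← mul_div_assoc, div_lt_iff₀ (by linarith)]
      nlinarith
    linarith

end Pool.Agent.P.MP_983584_an
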