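import Mathlib

set_option autoImplicit false

namespace Pool.Agent.P.MP_983584_an

open Finset

/-- autocorrelation of a weighted finite configuration of frequencies -/
noncomputable def corr {ι : Type} [Fintype ι] (p : ι → ℕ) (w : ι → ℝ) (n : ℕ) : ℝ :=
  ∑ i, ∑ k, if p i = p k + n then w i * w k else 0

/-- one term of the Bloch type sum -/
noncomputable def bterm (a b : ℕ) (N : ℝ) : ℝ :=
  if b < a ∧ (a : ℝ) - b ≤ N then (a : ℝ) - b else 0

/-- the sum of `n * corr n` over `0 < n ≤ N` -/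
noncomputable def bsum {ι : Type} [Fintype ι] (p : ι → ℕ) (w : ι → ℝ) (N : ℝ) : ℝ :=
  ∑ i, ∑ k, bterm (p i) (p k) N * (w i * w k)

structure Good {ι : Type} [Fintype ι] (p : ι → ℕ) (w : ι → ℝ) (M D : ℝ) : Prop where
  nonneg : ∀ i, 0 ≤ w i
  inj : Function.Injective p
  norm : ∑ i, w i ^ 2 = 1
  bloch : ∀ N : ℝ, 0 ≤ N → bsum p w N ≤ M * N
  energy : ∃ R : ℕ, D ≤ ∑ n ∈ range R, corr p w (n + 1) ^ 2

lemma bterm_nonneg (a b : ℕ) (N : ℝ) : 0 ≤ bterm a b N := by
  unfold bterm
  split_ifs with h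
  · have : (b : ℝ) < a := by exact_mod_cast h.1
    linarith
  · exact le_rfl

lemma corr_nonneg {ι : Type} [Fintype ι] (p : ι → ℕ) (w : ι → ℝ) (hw : ∀ i, 0 ≤ w i) (n : ℕ) :
    0 ≤ corr p w n := by
  unfold corr
  refine sum_nonneg fun i _ => sum_nonneg fun k _ => ?_
  split_ifs
  · exact mul_nonneg (hw i) (hw k)
  · exact le_rfl

/-- the pointwise inequality behind the product step -/
lemma bterm_add_le (a b c d L : ℕ) (N : ℝ) (ha : 2 * a < L) (hb : 2 * b < L)
    (hcd : d < c → d + L ≤ c) (hdc : c < d → c + L ≤ d) :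
    bterm (a + c) (b + d) N ≤ (if c = d then bterm a b N else 0) + 3 / 2 * bterm c d (2 * N) := by
  have h0 := bterm_nonneg c d (2 * N)
  rcases lt_trichotomy c d with h | h | h
  · have h1 := hdc h
    have : bterm (a + c) (b + d) N = 0 := by
      unfold bterm
      rw [if_neg]
      rintro ⟨h2, -⟩
      omega
    rw [this, if_neg h.ne]
    linarith
  · subst h
    have : bterm (a + c) (b + c) N = bterm a b N := by
      unfold bterm
      have e : ((a + c : ℕ) : ℝ) - ((b + c : ℕ) : ℝ) = (a : ℝ) - b := by push_cast; ring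
      rw [e]
      simp only [add_lt_add_iff_right]
    rw [this, if_pos rfl]
    linarith
  · have h1 := hcd h
    rw [if_neg h.ne']
    have h1' : (d : ℝ) + L ≤ c := by exact_mod_cast h1
    have ha' : 2 * (a : ℝ) < L := by exact_mod_cast ha
    have hb' : 2 * (b : ℝ) < L := by exact_mod_cast hb
    have ha0 : (0 : ℝ) ≤ a := Nat.cast_nonneg a
    have hb0 : (0 : ℝ) ≤ b := Nat.cast_nonneg b
    by_cases h2 : (b + d < a + c ∧ ((a + c : ℕ) : ℝ) - ((b + d : ℕ) : ℝ) ≤ N)
    · have e1 : bterm (a + c) (b + d) N = ((a + c : ℕ) : ℝ) - ((b + d : ℕ) : ℝ) := by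
        unfold bterm; rw [if_pos h2]
      have h3 := h2.2
      push_cast at h3 e1
      have e2 : bterm c d (2 * N) = (c : ℝ) - d := by
        unfold bterm; rw [if_pos]
        exact ⟨h, by linarith⟩
      rw [e1, e2]
      linarith
    · have e1 : bterm (a + c) (b + d) N = 0 := by
        unfold bterm; rw [if_neg h2]
      rw [e1]
      linarith

lemma corr_prod_ge {ι κ : Type} [Fintype ι] [Fintype κ] (p : ι → ℕ) (w : ι → ℝ) (q : κ → ℕ)
    (v : κ → ℝ) (hw : ∀ i, 0 ≤ w i) (hv : ∀ i, 0 ≤ v i) (nw : ∑ i, w i ^ 2 = 1)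
    (nv : ∑ i, v i ^ 2 = 1) (n : ℕ) :
    corr p w (n + 1) + corr q v (n + 1) ≤
      corr (fun x : ι × κ => p x.1 + q x.2) (fun x => w x.1 * v x.2) (n + 1) := by
  classical
  have e1 : corr p w (n + 1) = ∑ x : ι × κ, ∑ y : ι × κ,
      if x.2 = y.2 ∧ p x.1 = p y.1 + (n + 1) then (w x.1 * v x.2) * (w y.1 * v y.2) else 0 := by
    unfold corr
    rw [Fintype.sum_prod_type]
    refine sum_congr rfl fun i _ => ?_
    simp only [Fintype.sum_prod_type]
    rw [sum_comm]
    refine sum_congr rfl fun k _ => ?_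
    by_cases h : p i = p k + (n + 1)
    · simp only [h, and_true, if_true, sum_ite_eq, mem_univ]
      have : ∀ j, w i * v j * (w k * v j) = w i * w k * v j ^ 2 := fun j => by ring
      simp only [this, ← mul_sum, nv, mul_one]
    · simp [h]
  have e2 : corr q v (n + 1) = ∑ x : ι × κ, ∑ y : ι × κ,
      if x.1 = y.1 ∧ q x.2 = q y.2 + (n + 1) then (w x.1 * v x.2) * (w y.1 * v y.2) else 0 := by
    unfold corr
    rw [Fintype.sum_prod_type_right]
    refine sum_congr rfl fun i _ => ?_
    simp only [Fintype.sum_prod_type_right]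
    rw [sum_comm]
    refine sum_congr rfl fun k _ => ?_
    by_cases h : q i = q k + (n + 1)
    · simp only [h, and_true, if_true, sum_ite_eq, mem_univ]
      have : ∀ j, w j * v i * (w j * v k) = v i * v k * w j ^ 2 := fun j => by ring
      simp only [this, ← mul_sum, nw, mul_one]
    · simp [h]
  rw [e1, e2, ← sum_add_distrib]
  unfold corr
  refine sum_le_sum fun x _ => ?_
  rw [← sum_add_distrib]
  refine sum_le_sum fun y _ => ?_
  have h0 : 0 ≤ (w x.1 * v x.2) * (w y.1 * v y.2) :=
    mul_nonneg (mul_nonneg (hw _) (hv _)) (mul_nonneg (hw _) (hv _))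
  by_cases h1 : x.2 = y.2 ∧ p x.1 = p y.1 + (n + 1)
  · have h2 : ¬ (x.1 = y.1 ∧ q x.2 = q y.2 + (n + 1)) := by
      rintro ⟨h3, -⟩
      have := h1.2
      rw [h3] at this
      omega
    rw [if_pos h1, if_neg h2, if_pos]
    · simp
    · beta_reduce; rw [h1.1, h1.2]; ring
  · rw [if_neg h1]
    by_cases h2 : (x.1 = y.1 ∧ q x.2 = q y.2 + (n + 1))
    · rw [if_pos h2, if_pos]
      · simp
      · beta_reduce; rw [h2.1, h2.2]; ring
    · rw [if_neg h2]
      split_ifs
      · simpa using h0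
      · simp

lemma Good.prod {ι κ : Type} [Fintype ι] [Fintype κ] {p : ι → ℕ} {w : ι → ℝ} {q : κ → ℕ}
    {v : κ → ℝ} {M D M' D' : ℝ} (h : Good p w M D) (h' : Good q v M' D') (L : ℕ)
    (hL : ∀ i, 2 * p i < L) (hq : ∀ i k, q k < q i → q k + L ≤ q i) :
    Good (fun x : ι × κ => p x.1 + q x.2) (fun x => w x.1 * v x.2)
      (M + 3 * (∑ i, w i) ^ 2 * M') (D + D') where
  nonneg x := mul_nonneg (h.nonneg _) (h'.nonneg _)
  inj := by
    rintro ⟨i, j⟩ ⟨k, l⟩ e
    simp only at e
    have h1 := hL i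
    have h2 := hL k
    have h3 := hq j l
    have h4 := hq l j
    have h5 : q j = q l := by omega
    have h6 : p i = p k := by omega
    rw [h.inj h6, h'.inj h5]
  norm := by
    rw [Fintype.sum_prod_type]
    simp only [mul_pow, ← mul_sum, h'.norm, mul_one, h.norm]
  bloch N hN := by
    classical
    have b1 := h.bloch N hN
    have b2 := h'.bloch (2 * N) (by linarith)
    have key : bsum (fun x : ι × κ => p x.1 + q x.2) (fun x => w x.1 * v x.2) N ≤
        bsum p w N + 3 / 2 * (∑ i, w i) ^ 2 * bsum q v (2 * N) := by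
      have e1 : bsum p w N = ∑ x : ι × κ, ∑ y : ι × κ,
          (if q x.2 = q y.2 then bterm (p x.1) (p y.1) N else 0) *
            ((w x.1 * v x.2) * (w y.1 * v y.2)) := by
        unfold bsum
        rw [Fintype.sum_prod_type]
        refine sum_congr rfl fun i _ => ?_
        simp only [Fintype.sum_prod_type]
        rw [sum_comm]
        refine sum_congr rfl fun k _ => ?_
        simp only [h'.inj.eq_iff, ite_mul, zero_mul, sum_ite_eq, mem_univ, if_true]
        have : ∀ j, bterm (p i) (p k) N * (w i * v j * (w k * v j)) =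
            bterm (p i) (p k) N * (w i * w k) * v j ^ 2 := fun j => by ring
        simp only [this, ← mul_sum, h'.norm, mul_one]
      have e2 : 3 / 2 * (∑ i, w i) ^ 2 * bsum q v (2 * N) = ∑ x : ι × κ, ∑ y : ι × κ,
          (3 / 2 * bterm (q x.2) (q y.2) (2 * N)) * ((w x.1 * v x.2) * (w y.1 * v y.2)) := by
        unfold bsum
        rw [Fintype.sum_prod_type_right, mul_sum]
        refine sum_congr rfl fun j _ => ?_
        simp only [Fintype.sum_prod_type_right]
        rw [sum_comm, mul_sum]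
        refine sum_congr rfl fun l _ => ?_
        rw [sq, sum_mul_sum, mul_sum, sum_mul]
        refine sum_congr rfl fun i _ => ?_
        rw [mul_sum, sum_mul]
        refine sum_congr rfl fun k _ => ?_
        ring
      rw [e1, e2, ← sum_add_distrib]
      unfold bsum
      refine sum_le_sum fun x _ => ?_
      rw [← sum_add_distrib]
      refine sum_le_sum fun y _ => ?_
      rw [← add_mul]
      refine mul_le_mul_of_nonneg_right ?_ ?_
      · exact bterm_add_le _ _ _ _ L N (hL _) (hL _) (hq _ _) (hq _ _)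
      · exact mul_nonneg (mul_nonneg (h.nonneg _) (h'.nonneg _))
          (mul_nonneg (h.nonneg _) (h'.nonneg _))
    have h3 : 0 ≤ 3 / 2 * (∑ i, w i) ^ 2 := by positivity
    have := mul_le_mul_of_nonneg_left b2 h3
    nlinarith
  energy := by
    obtain ⟨R, hR⟩ := h.energy
    obtain ⟨R', hR'⟩ := h'.energy
    refine ⟨max R R', ?_⟩
    have a1 : ∑ n ∈ range R, corr p w (n + 1) ^ 2 ≤ ∑ n ∈ range (max R R'), corr p w (n + 1) ^ 2 :=
      sum_le_sum_of_subset_of_nonneg (range_mono (le_max_left _ _)) fun _ _ _ => sq_nonneg _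
    have a2 : ∑ n ∈ range R', corr q v (n + 1) ^ 2 ≤
        ∑ n ∈ range (max R R'), corr q v (n + 1) ^ 2 :=
      sum_le_sum_of_subset_of_nonneg (range_mono (le_max_right _ _)) fun _ _ _ => sq_nonneg _
    have a3 : ∑ n ∈ range (max R R'), corr p w (n + 1) ^ 2 +
        ∑ n ∈ range (max R R'), corr q v (n + 1) ^ 2 ≤ ∑ n ∈ range (max R R'),
        corr (fun x : ι × κ => p x.1 + q x.2) (fun x => w x.1 * v x.2) (n + 1) ^ 2 := by
      rw [← sum_add_distrib]
      refine sum_le_sum fun n _ => ?_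
      have c1 := corr_nonneg p w h.nonneg (n + 1)
      have c2 := corr_nonneg q v h'.nonneg (n + 1)
      have c3 := corr_prod_ge p w q v h.nonneg h'.nonneg h.norm h'.norm n
      nlinarith [mul_nonneg c1 c2]
    linarith

end Pool.Agent.P.MP_983584_an
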