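import Pool.Agent.P.MP_983584_an.Seq

set_option autoImplicit false

namespace Pool.Agent.P.MP_983584_an

open Finset

lemma le_one_of_partial {c : ℕ → ℝ} (h0 : ∀ n, 0 ≤ c n)
    (h1 : ∀ N : ℕ, ∑ n ∈ range N, ((n : ℝ) + 1) * c n ≤ N) (n : ℕ) : c n ≤ 1 := by
  have h2 := h1 (n + 1)
  have h3 : ((n : ℝ) + 1) * c n ≤ ∑ m ∈ range (n + 1), ((m : ℝ) + 1) * c m :=
    single_le_sum (f := fun m : ℕ => ((m : ℝ) + 1) * c m)
      (fun m _ => mul_nonneg (by positivity) (h0 m)) (self_mem_range_succ n)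
  push_cast at h2
  have h4 : (0 : ℝ) < (n : ℝ) + 1 := by positivity
  nlinarith

lemma exists_limit_seq : ∃ b : ℕ → ℝ, (∀ n, 0 ≤ b n) ∧
    (∀ N : ℕ, ∑ n ∈ range N, ((n : ℝ) + 1) * b n ≤ N) ∧
    (∀ z : ℂ, ‖z‖ < 1 → 0 < (1 + ∑' n : ℕ, (b n : ℂ) * z ^ (n + 1)).re) ∧
    ¬ Summable (fun n => b n ^ 2) := by
  choose c hc0 hc1 hc2 hc3 using fun j : ℕ => exists_seq ((4 : ℝ) ^ (j + 1) * j)
  have hle : ∀ j n, c j n ≤ 1 := fun j n => le_one_of_partial (hc0 j) (hc1 j) n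
  have hg : HasSum (fun j : ℕ => (1 / 2 : ℝ) ^ (j + 1)) 1 := by
    have := (hasSum_geometric_two).mul_right (1 / 2)
    rw [show (2 : ℝ) * (1 / 2) = 1 by norm_num] at this
    simpa only [pow_succ] using this
  have hs : ∀ n, Summable (fun j : ℕ => (1 / 2 : ℝ) ^ (j + 1) * c j n) := by
    intro n
    refine Summable.of_nonneg_of_le (fun j => mul_nonneg (by positivity) (hc0 j n))
      (fun j => ?_) hg.summable
    exact mul_le_of_le_one_right (by positivity) (hle j n)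
  refine ⟨fun n => ∑' j : ℕ, (1 / 2 : ℝ) ^ (j + 1) * c j n,
    fun n => tsum_nonneg fun j => mul_nonneg (by positivity) (hc0 j n), fun N => ?_,
    fun z hz => ?_, fun hS => ?_⟩
  · have h1 : HasSum (fun j : ℕ => ∑ n ∈ range N, ((n : ℝ) + 1) * ((1 / 2 : ℝ) ^ (j + 1) * c j n))
        (∑ n ∈ range N, ((n : ℝ) + 1) * ∑' j : ℕ, (1 / 2 : ℝ) ^ (j + 1) * c j n) :=
      hasSum_sum fun n _ => (hs n).hasSum.mul_left _
    have h2 := hg.mul_right (N : ℝ)
    rw [one_mul] at h2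
    refine hasSum_le (fun j => ?_) h1 h2
    have : ∑ n ∈ range N, ((n : ℝ) + 1) * ((1 / 2 : ℝ) ^ (j + 1) * c j n) =
        (1 / 2 : ℝ) ^ (j + 1) * ∑ n ∈ range N, ((n : ℝ) + 1) * c j n := by
      rw [mul_sum]
      exact sum_congr rfl fun n _ => by ring
    rw [this]
    exact mul_le_mul_of_nonneg_left (hc1 j N) (by positivity)
  · set F : ℕ → ℕ → ℂ := fun j n => (((1 / 2 : ℝ) ^ (j + 1) * c j n : ℝ) : ℂ) * z ^ (n + 1) with hF
    have hz0 := norm_nonneg z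
    have hgz : Summable (fun n : ℕ => ‖z‖ ^ n) := summable_geometric_of_lt_one hz0 hz
    have hFs : Summable (Function.uncurry F) := by
      refine Summable.of_norm_bounded (g := fun x : ℕ × ℕ => (1 / 2 : ℝ) ^ (x.1 + 1) * ‖z‖ ^ x.2)
        (hg.summable.mul_of_nonneg hgz (fun _ => by positivity) (fun _ => by positivity)) ?_
      rintro ⟨j, n⟩
      simp only [Function.uncurry, hF]
      rw [norm_mul, Complex.norm_real, norm_pow, Real.norm_of_nonneg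
        (mul_nonneg (by positivity) (hc0 j n)), mul_assoc]
      refine mul_le_mul_of_nonneg_left ?_ (by positivity)
      calc c j n * ‖z‖ ^ (n + 1) ≤ 1 * ‖z‖ ^ (n + 1) :=
            mul_le_mul_of_nonneg_right (hle j n) (by positivity)
        _ ≤ ‖z‖ ^ n := by
            rw [one_mul]; exact pow_le_pow_of_le_one hz0 hz.le (Nat.le_succ n)
    have e1 : ∑' n : ℕ, ((∑' j : ℕ, (1 / 2 : ℝ) ^ (j + 1) * c j n : ℝ) : ℂ) * z ^ (n + 1) =
        ∑' n, ∑' j, F j n := by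
      refine tsum_congr fun n => ?_
      rw [Complex.ofReal_tsum, ← tsum_mul_right]
    have e2 : ∑' n, ∑' j, F j n = ∑' j, ∑' n, F j n := hFs.tsum_comm
    have e3 : ∀ j, ∑' n, F j n =
        (((1 / 2 : ℝ) ^ (j + 1) : ℝ) : ℂ) * ∑' n : ℕ, (c j n : ℂ) * z ^ (n + 1) := by
      intro j
      rw [← tsum_mul_left]
      refine tsum_congr fun n => ?_
      simp only [hF]
      rw [Complex.ofReal_mul, mul_assoc]
    have hs2 : Summable (fun j => ∑' n, F j n) := hFs.prod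
    have h4 := Complex.hasSum_re hs2.hasSum
    have h5 := hg.mul_right (-(1 / 2) : ℝ)
    have h6 := hasSum_le (fun j => ?_) h5 h4
    · rw [Complex.add_re, e1, e2, Complex.one_re]
      linarith
    · rw [e3, Complex.re_ofReal_mul]
      refine mul_le_mul_of_nonneg_left ?_ (by positivity)
      have := hc2 j z hz
      have h7 : (1 + 2 * ∑' n : ℕ, (c j n : ℂ) * z ^ (n + 1)).re =
        1 + 2 * (∑' n : ℕ, (c j n : ℂ) * z ^ (n + 1)).re := by simp
      linarith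
  · obtain ⟨j, hj⟩ := exists_nat_gt (∑' n, (∑' j : ℕ, (1 / 2 : ℝ) ^ (j + 1) * c j n) ^ 2)
    obtain ⟨R, hR⟩ := hc3 j
    have h1 := hS.sum_le_tsum (range R) (fun n _ => sq_nonneg _)
    have h2 : ∑ n ∈ range R, ((1 / 2 : ℝ) ^ (j + 1) * c j n) ^ 2 ≤
        ∑ n ∈ range R, (∑' j : ℕ, (1 / 2 : ℝ) ^ (j + 1) * c j n) ^ 2 := by
      refine sum_le_sum fun n _ => ?_
      refine pow_le_pow_left₀ (mul_nonneg (by positivity) (hc0 j n)) ?_ 2
      exact (hs n).le_tsum j (fun i _ => mul_nonneg (by positivity) (hc0 i n))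
    have h3 : ∑ n ∈ range R, ((1 / 2 : ℝ) ^ (j + 1) * c j n) ^ 2 =
        ((1 / 2 : ℝ) ^ (j + 1)) ^ 2 * ∑ n ∈ range R, c j n ^ 2 := by
      rw [mul_sum]
      exact sum_congr rfl fun n _ => by ring
    have h4 : ((1 / 2 : ℝ) ^ (j + 1)) ^ 2 * (4 ^ (j + 1) * j) = j := by
      rw [← mul_assoc, ← pow_mul, mul_comm (j + 1) 2, pow_mul, ← mul_pow]
      norm_num
    have h5 := mul_le_mul_of_nonneg_left hR (sq_nonneg ((1 / 2 : ℝ) ^ (j + 1)))
    linarith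

/-- Abel summation -/
lemma abel_nonneg (u : ℕ → ℝ) (hu : ∀ N, 0 ≤ ∑ n ∈ range N, u n) (r : ℝ) (h0 : 0 ≤ r)
    (h1 : r ≤ 1) (N : ℕ) : (∑ n ∈ range N, u n) * r ^ N ≤ ∑ n ∈ range N, u n * r ^ n := by
  induction N with
  | zero => simp
  | succ N ih =>
    have h2 := hu (N + 1)
    have h3 : (∑ n ∈ range (N + 1), u n) * r ^ (N + 1) ≤ (∑ n ∈ range (N + 1), u n) * r ^ N :=
      mul_le_mul_of_nonneg_left (pow_le_pow_of_le_one h0 h1 (Nat.le_succ N)) h2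
    rw [sum_range_succ (fun n => u n * r ^ n)]
    rw [sum_range_succ u, add_mul] at h3
    rw [sum_range_succ u]
    linarith

lemma partial_deriv_le {b : ℕ → ℝ}
    (h1 : ∀ N : ℕ, ∑ n ∈ range N, ((n : ℝ) + 1) * b n ≤ N) (r : ℝ) (h0 : 0 ≤ r) (hr : r < 1)
    (N : ℕ) : ∑ n ∈ range N, ((n : ℝ) + 1) * b n * r ^ n ≤ (1 - r)⁻¹ := by
  have hu : ∀ N, 0 ≤ ∑ n ∈ range N, (1 - ((n : ℝ) + 1) * b n) := by
    intro N
    rw [sum_sub_distrib]
    have := h1 N
    simp only [sum_const, card_range, nsmul_eq_mul, mul_one]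
    linarith
  have h2 := abel_nonneg _ hu r h0 hr.le N
  have h3 := mul_nonneg (hu N) (pow_nonneg h0 N)
  have h4 : ∑ n ∈ range N, (1 - ((n : ℝ) + 1) * b n) * r ^ n =
      ∑ n ∈ range N, r ^ n - ∑ n ∈ range N, ((n : ℝ) + 1) * b n * r ^ n := by
    rw [← sum_sub_distrib]
    exact sum_congr rfl fun n _ => by ring
  have h5 : ∑ n ∈ range N, r ^ n ≤ (1 - r)⁻¹ :=
    sum_le_hasSum (range N) (fun n _ => pow_nonneg h0 n) (hasSum_geometric_of_lt_one h0 hr)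
  linarith

end Pool.Agent.P.MP_983584_an
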