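import Pool.Agent.P.MP_983584_an.Base

set_option autoImplicit false

namespace Pool.Agent.P.MP_983584_an

open Finset

/-- the analytic polynomial attached to a configuration -/
noncomputable def gpoly {ι : Type} [Fintype ι] (p : ι → ℕ) (w : ι → ℝ) (z : ℂ) : ℂ :=
  ∑ i, ∑ k, if p k < p i then ((w i * w k : ℝ) : ℂ) * z ^ (p i - p k) else 0

lemma hasSum_corr {ι : Type} [Fintype ι] (p : ι → ℕ) (w : ι → ℝ) (z : ℂ) :
    HasSum (fun n : ℕ => ((corr p w (n + 1) : ℝ) : ℂ) * z ^ (n + 1)) (gpoly p w z) := by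
  have e : (fun n : ℕ => ((corr p w (n + 1) : ℝ) : ℂ) * z ^ (n + 1)) = fun n : ℕ =>
      ∑ i, ∑ k, if p i = p k + (n + 1) then ((w i * w k : ℝ) : ℂ) * z ^ (n + 1) else 0 := by
    funext n
    unfold corr
    rw [Complex.ofReal_sum, sum_mul]
    refine sum_congr rfl fun i _ => ?_
    rw [Complex.ofReal_sum, sum_mul]
    refine sum_congr rfl fun k _ => ?_
    split_ifs <;> simp
  rw [e]
  unfold gpoly
  refine hasSum_sum fun i _ => hasSum_sum fun k _ => ?_
  split_ifs with h
  · have := hasSum_single (f := fun n : ℕ => if p i = p k + (n + 1) then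
      ((w i * w k : ℝ) : ℂ) * z ^ (n + 1) else 0) (p i - p k - 1) (fun n hn => by
        rw [if_neg]; omega)
    rw [if_pos (by omega)] at this
    have e2 : p i - p k - 1 + 1 = p i - p k := by omega
    rwa [e2] at this
  · have : (fun n : ℕ => if p i = p k + (n + 1) then
      ((w i * w k : ℝ) : ℂ) * z ^ (n + 1) else 0) = fun _ => 0 := by
      funext n
      rw [if_neg]; omega
    rw [this]
    exact hasSum_zero

lemma differentiable_gpoly {ι : Type} [Fintype ι] (p : ι → ℕ) (w : ι → ℝ) :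
    Differentiable ℂ (gpoly p w) := by
  unfold gpoly
  refine Differentiable.fun_sum fun i _ => Differentiable.fun_sum fun k _ => ?_
  split_ifs
  · fun_prop
  · fun_prop

lemma re_gpoly_sphere {ι : Type} [Fintype ι] (p : ι → ℕ) (w : ι → ℝ)
    (hp : Function.Injective p) (hw : ∑ i, w i ^ 2 = 1) (z : ℂ) (hz : ‖z‖ = 1) :
    0 ≤ (1 + 2 * gpoly p w z).re := by
  have hzz : z * (starRingEnd ℂ) z = 1 := by
    rw [Complex.mul_conj, Complex.normSq_eq_norm_sq, hz]; simp
  set t : ι → ι → ℝ := fun i k =>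
    (((w i : ℂ) * z ^ p i) * (starRingEnd ℂ) ((w k : ℂ) * z ^ p k)).re with ht
  have hsym : ∀ i k, t i k = t k i := by
    intro i k
    simp only [ht]
    rw [← Complex.conj_re, map_mul, Complex.conj_conj, mul_comm]
  have h1 := sum_sym_split p hp t hsym
  have h2 : ∑ i, ∑ k, t i k = Complex.normSq (∑ i, (w i : ℂ) * z ^ p i) := by
    have : ((Complex.normSq (∑ i, (w i : ℂ) * z ^ p i) : ℝ) : ℂ).re =
        Complex.normSq (∑ i, (w i : ℂ) * z ^ p i) := Complex.ofReal_re _
    rw [← this, ← Complex.mul_conj, map_sum, sum_mul_sum, Complex.re_sum]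
    refine sum_congr rfl fun i _ => ?_
    rw [Complex.re_sum]
  have h3 : ∀ i k, p k ≤ p i → t i k = (((w i * w k : ℝ) : ℂ) * z ^ (p i - p k)).re := by
    intro i k h
    simp only [ht]
    congr 1
    obtain ⟨d, hd⟩ := Nat.exists_eq_add_of_le h
    rw [hd, Nat.add_sub_cancel_left, map_mul, map_pow, Complex.conj_ofReal, pow_add]
    have : (z * (starRingEnd ℂ) z) ^ p k = 1 := by rw [hzz, one_pow]
    rw [mul_pow] at this
    push_cast
    linear_combination ((w i : ℂ) * w k * z ^ d) * this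
  have h4 : ∑ i, t i i = 1 := by
    rw [← hw]
    refine sum_congr rfl fun i _ => ?_
    rw [h3 i i le_rfl, Nat.sub_self, pow_zero, mul_one, Complex.ofReal_re, sq]
  have h5 : (gpoly p w z).re = ∑ i, ∑ k, if p k < p i then t i k else 0 := by
    unfold gpoly
    rw [Complex.re_sum]
    refine sum_congr rfl fun i _ => ?_
    rw [Complex.re_sum]
    refine sum_congr rfl fun k _ => ?_
    split_ifs with h
    · rw [h3 i k h.le]
    · simp
  have h6 : (1 + 2 * gpoly p w z).re = 1 + 2 * (gpoly p w z).re := by simp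
  rw [h6, h5]
  have := Complex.normSq_nonneg (∑ i, (w i : ℂ) * z ^ p i)
  linarith

lemma re_gpoly_ball {ι : Type} [Fintype ι] (p : ι → ℕ) (w : ι → ℝ)
    (hp : Function.Injective p) (hw : ∑ i, w i ^ 2 = 1) (z : ℂ) (hz : ‖z‖ < 1) :
    0 ≤ (1 + 2 * gpoly p w z).re := by
  have hd : Differentiable ℂ (fun z => Complex.exp (-(1 + 2 * gpoly p w z))) := by
    have := differentiable_gpoly p w
    fun_prop
  have h := Complex.norm_le_of_forall_mem_frontier_norm_le (U := Metric.ball (0 : ℂ) 1)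
    (C := 1) Metric.isBounded_ball hd.diffContOnCl (fun y hy => by
      rw [frontier_ball _ one_ne_zero, mem_sphere_zero_iff_norm] at hy
      rw [Complex.norm_exp, Real.exp_le_one_iff, Complex.neg_re, neg_nonpos]
      exact re_gpoly_sphere p w hp hw y hy) (z := z)
    (subset_closure (mem_ball_zero_iff.2 hz))
  rw [Complex.norm_exp, Real.exp_le_one_iff, Complex.neg_re, neg_nonpos] at h
  exact h

lemma sum_corr_le {ι : Type} [Fintype ι] (p : ι → ℕ) (w : ι → ℝ) (hw : ∀ i, 0 ≤ w i) (N : ℕ) :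
    ∑ n ∈ range N, ((n : ℝ) + 1) * corr p w (n + 1) ≤ bsum p w N := by
  unfold corr bsum
  simp only [mul_sum]
  rw [sum_comm (s := range N)]
  refine sum_le_sum fun i _ => ?_
  rw [sum_comm (s := range N)]
  refine sum_le_sum fun k _ => ?_
  have h0 := mul_nonneg (bterm_nonneg (p i) (p k) N) (mul_nonneg (hw i) (hw k))
  by_cases h : p k < p i ∧ p i - p k - 1 < N
  · rw [sum_eq_single (p i - p k - 1)]
    · rw [if_pos (by omega)]
      obtain ⟨d, hd⟩ := Nat.exists_eq_add_of_lt h.1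
      have hd2 : p i - p k - 1 = d := by omega
      have hd3 : (p i : ℝ) = p k + d + 1 := by exact_mod_cast hd
      have hd4 : (d : ℝ) + 1 ≤ N := by
        have : d + 1 ≤ N := by omega
        exact_mod_cast this
      unfold bterm
      rw [if_pos ⟨h.1, by linarith⟩, hd2, hd3]
      apply le_of_eq
      ring
    · intro n _ hn
      rw [if_neg (by omega), mul_zero]
    · intro hn
      exact absurd (mem_range.2 h.2) hn
  · rw [sum_eq_zero]
    · exact h0
    · intro n hn
      rw [mem_range] at hn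
      rw [if_neg (by omega), mul_zero]

lemma exists_seq (D : ℝ) : ∃ c : ℕ → ℝ, (∀ n, 0 ≤ c n) ∧
    (∀ N : ℕ, ∑ n ∈ range N, ((n : ℝ) + 1) * c n ≤ N) ∧
    (∀ z : ℂ, ‖z‖ < 1 → 0 ≤ (1 + 2 * ∑' n : ℕ, (c n : ℂ) * z ^ (n + 1)).re) ∧
    ∃ R : ℕ, D ≤ ∑ n ∈ range R, c n ^ 2 := by
  obtain ⟨j, hj⟩ := exists_nat_ge (4 * D)
  obtain ⟨ι, _, p, w, M, hM, h⟩ := exists_good j
  refine ⟨fun n => corr p w (n + 1), fun n => corr_nonneg p w h.nonneg _, fun N => ?_,
    fun z hz => ?_, ?_⟩
  · have h1 := sum_corr_le p w h.nonneg N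
    have h2 := h.bloch N (Nat.cast_nonneg N)
    have h3 : (0 : ℝ) ≤ N := Nat.cast_nonneg N
    nlinarith
  · rw [(hasSum_corr p w z).tsum_eq]
    exact re_gpoly_ball p w h.inj h.norm z hz
  · obtain ⟨R, hR⟩ := h.energy
    exact ⟨R, by linarith⟩

end Pool.Agent.P.MP_983584_an
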